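import Pool.Agent.Lib.MP_329b4d_pr.All

/-!
# Asymptotic tour length in sparse randomly embedded random graphs

For every dimension `d ≥ 1` and every `0 < α < 1` there is a constant `β ∈ (0, ∞)` such that, with
`p = n ^ (-α)`, the minimum length `T` of a Hamilton cycle of the random graph `G_{X,p}` satisfies
`T ∼ β n ^ ((d-1)/d) / p ^ (1/d)` asymptotically almost surely.

The proof: a local weak limit (the tree-like limit of the marked graph of short edges) determines
the asymptotic value of a truncated linear programming relaxation; the linear program is rounded to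
a path cover with few paths, because short cycles are rare; and a patching theorem joins the paths
of a path cover to a tour at small extra cost, using a small independent fraction of the edges.
-/

namespace Pool.Agent.Results.MP_329b4d_pr.TourAsymptotics

open MeasureTheory Filter

/-- Points: Euclidean space of dimension `d`. -/
abbrev Pt (d : ℕ) := EuclideanSpace ℝ (Fin d)

/-- The unit cube `[0,1]^d`. -/
def cube (d : ℕ) : Set (Pt d) := {x | ∀ i, 0 ≤ x i ∧ x i ≤ 1}

/-- The uniform distribution on the unit cube. -/
noncomputable def unif (d : ℕ) : Measure (Pt d) := volume.restrict (cube d)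

/-- A coin which shows `true` with probability `p`. -/
noncomputable def coin (p : ℝ) : Measure Bool :=
  ENNReal.ofReal p • Measure.dirac true + ENNReal.ofReal (1 - p) • Measure.dirac false

/-- A sample: the positions of the `n` vertices and one coin for every unordered pair
(the coins of the pairs `s(i, i)` are never used). -/
abbrev Sample (n d : ℕ) := (Fin n → Pt d) × (Sym2 (Fin n) → Bool)

/-- The law of the sample: independent uniform positions, and independent coins with
probability `p`, independent of the positions. -/
noncomputable def law (n d : ℕ) (p : ℝ) : Measure (Sample n d) :=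
  (Measure.pi fun _ => unif d).prod (Measure.pi fun _ => coin p)

/-- `i` and `j` are joined by an edge of the random graph. -/
def joined {n d : ℕ} (ω : Sample n d) (i j : Fin n) : Prop := i ≠ j ∧ ω.2 s(i, j) = true

/-- The minimum total length of a Hamilton cycle of the random graph, `⊤` if there is none.  A
Hamilton cycle (`n ≥ 3`) is given by a permutation `σ` such that `σ i` is joined to `σ (i + 1)` for
every `i`, cyclically. -/
noncomputable def tourLength {n d : ℕ} (ω : Sample n d) : ENNReal :=
  ⨅ (σ : Equiv.Perm (Fin n)) (_ : 3 ≤ n ∧ ∀ i, joined ω (σ i) (σ (finRotate n i))),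
    ∑ i, ENNReal.ofReal (dist (ω.1 (σ i)) (ω.1 (σ (finRotate n i))))

/-- For every `d ≥ 1` and `0 < α < 1` there is `β ∈ (0, ∞)` such that for every `ε > 0`, with
`p = n ^ (-α)`, the probability that a Hamilton cycle exists and that its minimum length `T`
satisfies `|T / (β n ^ ((d-1)/d) / p ^ (1/d)) - 1| ≤ ε` tends to `1`. -/
theorem result (d : ℕ) (hd : 1 ≤ d) (α : ℝ) (h0 : 0 < α) (h1 : α < 1) :
    ∃ β : ℝ, 0 < β ∧ ∀ ε : ℝ, 0 < ε →
      Tendsto (fun n : ℕ => (law n d ((n : ℝ) ^ (-α))) {ω | tourLength ω ≠ ⊤ ∧
        |(tourLength ω).toReal / (β * ((n : ℝ) ^ (((d : ℝ) - 1) / d) /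
          ((n : ℝ) ^ (-α)) ^ (1 / (d : ℝ)))) - 1| ≤ ε}) atTop (nhds 1) :=
  MP329.mainTheorem d α hd h0 h1

end Pool.Agent.Results.MP_329b4d_pr.TourAsymptotics
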